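import Pool.Agent.Lib.MP_71aad1_an.QJ6
import Pool.Agent.Lib.MP_71aad1_an.QJ7
import Pool.Agent.Lib.MP_71aad1_an.QC3
import Pool.Agent.Lib.MP_71aad1_an.QW13

set_option autoImplicit false

namespace Pool.Agent.Results.MP_71aad1_an.SingleClass

open Pool.Agent.Lib.MP_71aad1_an.SS Matrix

/-- For `G = ℤ/2` every `G`-primitive matrix that is strong shift equivalent over `ℤG` to the
one by one matrix `4 (1 + g)` is strong shift equivalent to it over `Z₊G`. -/
theorem result :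
  ∀ B : Σ n : ℕ, (Fin n → Fin n → Multiplicative (ZMod 2) → ℤ),
    (0 < B.1 ∧ (∀ i j g, 0 ≤ B.2 i j g) ∧
      ∃ k : ℕ, ∀ i j g, 0 <
        ((fun M : Fin B.1 → Fin B.1 → Multiplicative (ZMod 2) → ℤ =>
            fun i l g => ∑ j, ∑ h : Multiplicative (ZMod 2), M i j h * B.2 j l (h⁻¹ * g))^[k] B.2)
          i j g) →
    Relation.EqvGen
      (fun P Q : (Σ n : ℕ, (Fin n → Fin n → Multiplicative (ZMod 2) → ℤ)) =>
        ∃ (R : Fin P.1 → Fin Q.1 → Multiplicative (ZMod 2) → ℤ)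
          (S : Fin Q.1 → Fin P.1 → Multiplicative (ZMod 2) → ℤ),
          P.2 = (fun i l g => ∑ j, ∑ h : Multiplicative (ZMod 2), R i j h * S j l (h⁻¹ * g)) ∧
          Q.2 = (fun i l g => ∑ j, ∑ h : Multiplicative (ZMod 2), S i j h * R j l (h⁻¹ * g)))
      B ⟨1, fun _ _ _ => 4⟩ →
    Relation.EqvGen
      (fun P Q : (Σ n : ℕ, (Fin n → Fin n → Multiplicative (ZMod 2) → ℤ)) =>
        ∃ (R : Fin P.1 → Fin Q.1 → Multiplicative (ZMod 2) → ℤ)
          (S : Fin Q.1 → Fin P.1 → Multiplicative (ZMod 2) → ℤ),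
          (∀ i j g, 0 ≤ R i j g) ∧ (∀ i j g, 0 ≤ S i j g) ∧
          P.2 = (fun i l g => ∑ j, ∑ h : Multiplicative (ZMod 2), R i j h * S j l (h⁻¹ * g)) ∧
          Q.2 = (fun i l g => ∑ j, ∑ h : Multiplicative (ZMod 2), S i j h * R j l (h⁻¹ * g)))
      B ⟨1, fun _ _ _ => 4⟩ := by
  intro B hB hE
  have fw : Relation.EqvGen (ES fun _ => True) (cvM B) (cvM A0) := by
    refine qt0_map cvM ?_ hE
    rintro P Q ⟨R, S, e1, e2⟩
    refine ⟨of fun i j => cvL (R i j), of fun i j => cvL (S i j), fun _ _ => trivial,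
      fun _ _ => trivial, ?_, ?_⟩
    · change (of fun i j => cvL (P.2 i j)) = _
      rw [e1]
      exact qt0_mul R S
    · change (of fun i j => cvL (Q.2 i j)) = _
      rw [e2]
      exact qt0_mul S R
  have h3 := mainStmt (jointStmt (thmC finalStmt)) _ _ (qt0_prim _ hB)
    (qt0_prim A0 ⟨Nat.one_pos, fun _ _ _ => by simp [A0], 0, fun _ _ _ => by simp [A0]⟩) fw
    (Relation.EqvGen.refl _)
  change Relation.EqvGen _ B A0
  rw [← qt0_inv B, ← qt0_inv A0]
  refine qt0_map (fun A : FM => (⟨A.1, fun i j => cvG (A.2 i j)⟩ : GM)) ?_ h3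
  rintro P Q ⟨R, S, p1, p2, e1, e2⟩
  refine ⟨fun i j => cvG (R i j), fun i j => cvG (S i j), fun i j => qt0_pos (p1 i j),
    fun i j => qt0_pos (p2 i j), ?_, ?_⟩
  · change (fun i j => cvG (P.2 i j)) = _
    rw [e1]
    exact qt0_back R S
  · change (fun i j => cvG (Q.2 i j)) = _
    rw [e2]
    exact qt0_back S R

end Pool.Agent.Results.MP_71aad1_an.SingleClass
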