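import Pool.Agent.Lib.MP_71aad1_an.GroupRing

set_option autoImplicit false

namespace Pool.Agent.Results.MP_71aad1_an.Unbounded

open Pool.Agent.Lib.MP_71aad1_an

/-- For every nontrivial finite group `G` and every `N` there is a `G`-primitive matrix `A` whose
strong shift equivalence class over `ℤG` contains `N` `G`-primitive matrices that are pairwise not strong shift
equivalent over `Z₊G`. -/
theorem result :
  ∀ (G : Type) [Group G] [Fintype G] [Nontrivial G] (N : ℕ),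
    ∃ A : Σ n : ℕ, (Fin n → Fin n → G → ℤ),
    (0 < A.1 ∧ (∀ i j g, 0 ≤ A.2 i j g) ∧
      ∃ k : ℕ, ∀ i j g, 0 <
        ((fun M : Fin A.1 → Fin A.1 → G → ℤ =>
            fun i l g => ∑ j, ∑ h : G, M i j h * A.2 j l (h⁻¹ * g))^[k] A.2) i j g) ∧
    ∃ f : Fin N → (Σ n : ℕ, (Fin n → Fin n → G → ℤ)),
      (∀ m, (0 < (f m).1 ∧ (∀ i j g, 0 ≤ (f m).2 i j g) ∧
          ∃ k : ℕ, ∀ i j g, 0 <
            ((fun M : Fin (f m).1 → Fin (f m).1 → G → ℤ =>
                fun i l g => ∑ j, ∑ h : G, M i j h * (f m).2 j l (h⁻¹ * g))^[k] (f m).2) i j g) ∧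
        Relation.EqvGen
          (fun P Q : (Σ n : ℕ, (Fin n → Fin n → G → ℤ)) =>
            ∃ (R : Fin P.1 → Fin Q.1 → G → ℤ) (S : Fin Q.1 → Fin P.1 → G → ℤ),
              P.2 = (fun i l g => ∑ j, ∑ h : G, R i j h * S j l (h⁻¹ * g)) ∧
              Q.2 = (fun i l g => ∑ j, ∑ h : G, S i j h * R j l (h⁻¹ * g)))
          (f m) A) ∧
      ∀ m m', m ≠ m' → ¬ Relation.EqvGen
          (fun P Q : (Σ n : ℕ, (Fin n → Fin n → G → ℤ)) =>
            ∃ (R : Fin P.1 → Fin Q.1 → G → ℤ) (S : Fin Q.1 → Fin P.1 → G → ℤ),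
              (∀ i j g, 0 ≤ R i j g) ∧ (∀ i j g, 0 ≤ S i j g) ∧
              P.2 = (fun i l g => ∑ j, ∑ h : G, R i j h * S j l (h⁻¹ * g)) ∧
              Q.2 = (fun i l g => ∑ j, ∑ h : G, S i j h * R j l (h⁻¹ * g)))
          (f m) (f m') := by
  intro G _ _ _ N
  obtain ⟨n, A, B, c, h0, hc, hA, hB, h⟩ := main G N
  exact ⟨⟨n, dec A c⟩, ⟨h0, dec_prim hA hc⟩, fun m => ⟨n, dec (B m) c⟩,
    fun m => ⟨⟨h0, dec_prim (hB m).1 hc⟩, Relation.EqvGen.rel _ _ (hB m).2⟩, h⟩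

end Pool.Agent.Results.MP_71aad1_an.Unbounded
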